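import Mathlib
import Pool.Agent.U161.RG.Gap

/-!
# Uniform growth gap for linear groups over Galois extensions of `ℚ` of finite exponent

Let `E ⊂ ℂ` be a Galois extension of `ℚ`, finite or infinite, whose Galois group has exponent
dividing `m`; for instance the compositum of all number fields of degree at most `δ`, with
`m = lcm (1, …, δ)`.  With an absolute constant `C` put

`gap m B = (log B) ^ (m + 2) / ((C m ^ 2) ^ (m + 1) B ^ (2 m + 1))`.

Let `G = ⟨S⟩` with `S` finite and let `H` be a subgroup of index at most `d`.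

1. If `Γ = γ_{k+1}(H)` is nilpotent (or `H / [Γ, Γ]` is not virtually nilpotent) and the unit
   eigenvalues of the elements of `H` on `ℂ ⊗ Γ^ab` which are not roots of unity have degree at most
   `D` over `E`, then `G` is virtually nilpotent or
   `ρ_S ≥ gap m (C + m² + log D) / (12 · 2 ^ k d)`.
2. If `H` is isomorphic to a group of upper triangular complex matrices, of any size, whose diagonal
   entries have degree at most `D` over `E`, then `G` is virtually nilpotent or
   `ρ_S ≥ gap m (C + m² + 2 log D) / (24 d)`.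
3. If `G` is a subgroup of `GL_n(E)` and `H` is triangularizable over `ℂ`, then `G` is virtually
   nilpotent or `ρ_S ≥ gap m (C + m² + 2 log n) / (24 d)`.
4. If, for some `ε > 0`, the unit eigenvalues `z` in 1 which are not roots of unity have degree at
   most `n ^ (1 - ε)` over some Galois extension `E_z` of exponent `m_z`, `n` being the degree of `z`
   over `ℚ`, and `m_z log log 3n ≤ c(ε) log 3n`, then `G` is virtually nilpotent or
   `ρ_S ≥ κ(ε) / (2 ^ k d)`.

So the degree of the field plays no role, and the relative degree enters only through a power of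
its logarithm, with an exponent depending on `m`.  For `E = ℚ` (`m = 1`) this is what follows from
Dobrowolski's theorem.

Proof: the reduction to one eigenvalue is `Pool.Agent.TH53.UG.gap_general`, the Mahler measure is
bounded below by the relative Dobrowolski theorem `Pool.Agent.U218.LD.final` over `E`, and the
eigenvalues of a triangular group on the abelianization of its derived subgroup are conjugates of
quotients of diagonal entries.
-/

set_option autoImplicit false

namespace Pool.Agent.Results.MP_d69e80_al.BoundedExponentFields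

open Filter Topology Polynomial
open scoped Pointwise commutatorElement TensorProduct

universe u

/-- The term `γ_{k+1}(G)` of the lower central series (so `k = 1` gives `G'`). -/
abbrev gamma (G : Type*) [Group G] (k : ℕ) : Subgroup G := (⊤ : Subgroup G).lowerCentralSeries k

/-- Conjugation by `t` on the abelianization `N^ab` (written additively) of a normal subgroup `N`,
as an endomorphism of the abelian group `N^ab`. -/
noncomputable def conjAb {G : Type*} [Group G] (N : Subgroup G) [N.Normal] (t : G) :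
    Module.End ℤ (Additive (Abelianization N)) :=
  (MonoidHom.toAdditive
    (Abelianization.map (MulAut.conjNormal t : N ≃* N).toMonoidHom)).toIntLinearMap

/-- `Γ = γ_{k+1}(H)` is nilpotent, or `H / [Γ, Γ]` is not virtually nilpotent. -/
def Tail (H : Type u) [Group H] (k : ℕ) : Prop :=
  Group.IsNilpotent (gamma H k) ∨ ¬ Group.IsVirtuallyNilpotent (H ⧸ ⁅gamma H k, gamma H k⁆)

/-- `z` is an algebraic unit (`z` and `z⁻¹` are algebraic integers) and not a root of unity. -/
def FreeUnit (z : ℂ) : Prop :=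
  z ≠ 0 ∧ IsIntegral ℤ z ∧ IsIntegral ℤ z⁻¹ ∧ ∀ j : ℕ, 0 < j → z ^ j ≠ 1

/-- `z` is, for `Γ = γ_{k+1}(H)`, an eigenvalue of `t ∈ H` acting on `ℂ ⊗ Γ^ab` by conjugation, an
algebraic unit, and not a root of unity. -/
def UnitEigenvalue {H : Type u} [Group H] (k : ℕ) (t : H) (z : ℂ) : Prop :=
  Module.End.HasEigenvalue (LinearMap.baseChange ℂ (conjAb (gamma H k) t) :
    Module.End ℂ (ℂ ⊗[ℤ] Additive (Abelianization (gamma H k)))) z ∧ FreeUnit z

/-- The subfield `E` of `ℂ` is Galois over `ℚ` and its Galois group has exponent dividing `m`. -/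
def GaloisOfExponent (E : IntermediateField ℚ ℂ) (m : ℕ) : Prop :=
  IsGalois ℚ E ∧ ∀ σ : E ≃ₐ[ℚ] E, σ ^ m = 1

/-- `z` is algebraic over `E`, of degree at most `D`. -/
def DegreeLe (E : IntermediateField ℚ ℂ) (D : ℕ) (z : ℂ) : Prop :=
  IsIntegral E z ∧ (minpoly E z).natDegree ≤ D

/-- The quantity `(log B) ^ (m + 2) / ((C m ^ 2) ^ (m + 1) B ^ (2 m + 1))`. -/
noncomputable def gap (C : ℝ) (m : ℕ) (B : ℝ) : ℝ :=
  Real.log B ^ (m + 2) / ((C * m ^ 2) ^ (m + 1) * B ^ (2 * m + 1))

/-- `H` is isomorphic to a group of upper triangular complex matrices (of some size) whose diagonal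
entries have degree at most `D` over `E`. -/
def Triangular (E : IntermediateField ℚ ℂ) (D : ℕ) (H : Type u) [Group H] : Prop :=
  ∃ (N : ℕ) (φ : H →* Matrix.GeneralLinearGroup (Fin N) ℂ), Function.Injective φ ∧
    ∀ h : H, (∀ i j : Fin N, j < i → φ h i j = 0) ∧ ∀ i : Fin N, DegreeLe E D (φ h i i)

/-- `G` is isomorphic to a subgroup of `GL_n(E)` such that the image of `H` is conjugate in
`GL_n(ℂ)` to a group of upper triangular matrices. -/
def LinearOver (E : IntermediateField ℚ ℂ) (n : ℕ) (G : Type u) [Group G] (H : Subgroup G) : Prop :=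
  ∃ φ : G →* Matrix.GeneralLinearGroup (Fin n) E, Function.Injective φ ∧
    ∃ P : Matrix.GeneralLinearGroup (Fin n) ℂ, ∀ h ∈ H, ∀ i j : Fin n, j < i →
      (P * Matrix.GeneralLinearGroup.map (algebraMap E ℂ) (φ h) * P⁻¹ :
        Matrix.GeneralLinearGroup (Fin n) ℂ) i j = 0

/-- The exponential growth rate `ρ` of `S` exists, and the group `G = ⟨S⟩` is virtually nilpotent or
`ρ ≥ b`. -/
def GapFor {G : Type u} [Group G] (S : Set G) (b : ℝ) : Prop :=
  ∃ ρ : ℝ, Tendsto (fun n : ℕ => Real.log (Nat.card ↥(S ^ n)) / n) atTop (𝓝 ρ) ∧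
    (Group.IsVirtuallyNilpotent G ∨ b ≤ ρ)

/-- Each unit eigenvalue `z` of `H`, of degree `n` over `ℚ`, has degree at most `n ^ (1 - ε)` over a
Galois extension of `ℚ` of exponent `m` with `m log log 3n ≤ c log 3n`, both depending on `z`. -/
def PowerSaving (c ε : ℝ) (H : Type u) [Group H] (k : ℕ) : Prop :=
  ∀ (t : H) (z : ℂ), UnitEigenvalue k t z → ∃ (m : ℕ) (E : IntermediateField ℚ ℂ), 0 < m ∧
    GaloisOfExponent E m ∧
    m * Real.log (Real.log (3 * (minpoly ℤ z).natDegree)) ≤
      c * Real.log (3 * (minpoly ℤ z).natDegree) ∧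
    ((minpoly E z).natDegree : ℝ) ≤ ((minpoly ℤ z).natDegree : ℝ) ^ (1 - ε)

theorem result :
    (∃ C : ℝ, 0 < C ∧ ∀ (m : ℕ) (E : IntermediateField ℚ ℂ), 0 < m → GaloisOfExponent E m →
      ∀ (G : Type u) [Group G] (S : Set G), S.Finite → Subgroup.closure S = ⊤ →
      ∀ (d : ℕ) (H : Subgroup G), H.index ≠ 0 → H.index ≤ d → ∀ D : ℕ, 0 < D →
      (∀ k : ℕ, 1 ≤ k → Tail H k →
        (∀ (t : H) (z : ℂ), UnitEigenvalue k t z → DegreeLe E D z) →
        GapFor S (gap C m (C + m ^ 2 + Real.log D) / (12 * 2 ^ k * d))) ∧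
      (Triangular E D H → GapFor S (gap C m (C + m ^ 2 + 2 * Real.log D) / (24 * d))) ∧
      (LinearOver E D G H → GapFor S (gap C m (C + m ^ 2 + 2 * Real.log D) / (24 * d)))) ∧
    (∀ ε : ℝ, 0 < ε → ∃ c : ℝ, 0 < c ∧ ∃ κ : ℝ, 0 < κ ∧
      ∀ (G : Type u) [Group G] (S : Set G), S.Finite → Subgroup.closure S = ⊤ →
      ∀ (d : ℕ) (H : Subgroup G), H.index ≠ 0 → H.index ≤ d →
      ∀ k : ℕ, 1 ≤ k → Tail H k → PowerSaving c ε H k → GapFor S (κ / (2 ^ k * d))) := by
  constructor
  · obtain ⟨C, hC, h⟩ := Pool.Agent.U161.RG.main.{u}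
    refine ⟨C, by linarith, ?_⟩
    intro m E hm hE G _ S hfin hgen d H hH0 hHd D hD
    obtain ⟨h1, h2⟩ := h m hm E hE.1 hE.2 D hD G S hfin hgen d H hH0 hHd
    refine ⟨fun k hk hnil hdeg => ⟨Pool.Agent.H746UG.rho S, Pool.Agent.H746UG.tendsto_rho S,
      h1 k hk hnil fun t z hz hu => (hdeg t z ⟨hz, hu⟩).2⟩,
      fun htri => ⟨Pool.Agent.H746UG.rho S, Pool.Agent.H746UG.tendsto_rho S, h2 htri⟩, ?_⟩
    rintro ⟨φ, hφ, P, hP⟩
    exact ⟨Pool.Agent.H746UG.rho S, Pool.Agent.H746UG.tendsto_rho S,
      h2 (Pool.Agent.U161.RG.tri_of_linear E φ hφ H P hP)⟩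
  · intro ε hε
    obtain ⟨c, hc, κ, hκ, h⟩ := Pool.Agent.U161.RG.main_ps.{u} ε hε
    refine ⟨c, hc, κ, hκ, ?_⟩
    intro G _ S hfin hgen d H hH0 hHd k hk hnil hps
    refine ⟨Pool.Agent.H746UG.rho S, Pool.Agent.H746UG.tendsto_rho S,
      h G S hfin hgen d H hH0 hHd k hk hnil ?_⟩
    intro t z hz hu
    obtain ⟨m, E, hm, hE, h1, h2⟩ := hps t z ⟨hz, hu⟩
    exact ⟨m, E, hm, hE.1, hE.2, h1, h2⟩

end Pool.Agent.Results.MP_d69e80_al.BoundedExponentFields
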