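import Mathlib
import Pool.Agent.U161.AM.Main

/-!
# Growth of groups of derived length three and Mahler measures

`S` is a finite symmetric generating set of an arbitrary group `G` and `H` a subgroup of index at
most `d`.  Let `Λ` be the set of the algebraic units `z`, not roots of unity, which are eigenvalues
of some `t ∈ H` acting by conjugation on `ℂ ⊗ (H')^ab` or of some `t ∈ H'` acting on
`ℂ ⊗ (H'')^ab`.  We show that one of the following holds:

* `ρ_S ≥ min 1 (log M(z)) / (31416 (2 d - 1))` for some `z ∈ Λ`;
* `ρ_S ≥ 1 / (128 (2 d - 1))`;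
* `H / H'''` is virtually nilpotent;
* `H` is exceptional: all subgroups of `H / H'''` are finitely generated, `H / H''` and `H' / H'''`
  are virtually nilpotent, and `H' / H'''` is not nilpotent.

So Lehmer's conjecture implies the growth gap for all groups of derived length three which are not
exceptional.  The starting theorems give such bounds if `H'` is nilpotent, if `H / H''` is not
virtually nilpotent, or if `H / H'''` has a subgroup that is not finitely generated.  New are the
polycyclic groups with `H / H''` virtually nilpotent and `H'` not virtually nilpotent: here the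
abelian-by-nilpotent subgroups have finite, but unbounded index, and the bounds in terms of `M(z)`
known before depend on this index.  If the elements of `Λ` have degree at most `n` then Dobrowolski's theorem gives
`ρ_S ≥ κ / ((2 d - 1) (log 2n) ^ 3)` unconditionally.

Proof.  For a short commutator `c` and a weight `χ` of `H'` on `ℂ ⊗ (H'')^ab` with `χ(c)` not a root
of unity, `m ↦ φ [c, m]` is a crossed homomorphism on `H'`; translates along a shortest word give
`K` such lines and `K R` free digits in words of length `22 K R`.  Flipping a digit of the word in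
the `c_i` shows that for at least half of the lines the common multiplier is not a root of unity.
On such a line the digits are the coefficients of `∑ ± u ^ r σ_r`, where the `σ_r` are unknown and
depend only on the digits of the previous lines.  The number of coincidences of such sums
is at most `4 ^ R exp (- R min 1 (log M(u)) / 714)` in the geometric mean over the `σ`: this is an
entropy argument at all places at once, with the Hermitian forms of the digit sums of the Galois
conjugates of `u` outside the unit disc.
-/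

set_option autoImplicit false

namespace Pool.Agent.Results.MP_d69e80_al.DerivedLengthThreeMahler

open Filter Topology Polynomial
open scoped Pointwise commutatorElement TensorProduct

universe u

/-- Conjugation by `t` on the abelianization `N^ab` (written additively) of a normal subgroup `N`,
as an endomorphism of the abelian group `N^ab`. -/
noncomputable def conjAb {G : Type*} [Group G] (N : Subgroup G) [N.Normal] (t : G) :
    Module.End ℤ (Additive (Abelianization N)) :=
  (MonoidHom.toAdditive
    (Abelianization.map (MulAut.conjNormal t : N ≃* N).toMonoidHom)).toIntLinearMap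

/-- `z` is an eigenvalue of the conjugation by `t` on `ℂ ⊗ N^ab`. -/
def Eigenvalue {H : Type*} [Group H] (N : Subgroup H) [N.Normal] (t : H) (z : ℂ) : Prop :=
  Module.End.HasEigenvalue (LinearMap.baseChange ℂ (conjAb N t) :
    Module.End ℂ (ℂ ⊗[ℤ] Additive (Abelianization N))) z

/-- `z` is an algebraic unit and not a root of unity. -/
def FreeUnit (z : ℂ) : Prop := IsIntegral ℤ z ∧ IsIntegral ℤ z⁻¹ ∧ ∀ n : ℕ, 0 < n → z ^ n ≠ 1

/-- The Mahler measure of the minimal polynomial of `z` over `ℤ`. -/
noncomputable def mahler (z : ℂ) : ℝ := ((minpoly ℤ z).map (Int.castRingHom ℂ)).mahlerMeasure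

/-- The set `Λ` of the free units which are eigenvalues of some element of `H` on `ℂ ⊗ (H')^ab` or
of some element of `H'` on `ℂ ⊗ (H'')^ab`. -/
def Spectrum (H : Type*) [Group H] : Set ℂ :=
  {z | FreeUnit z ∧ ((∃ t : H, Eigenvalue (derivedSeries H 1) t z) ∨
    ∃ t ∈ derivedSeries H 1, Eigenvalue (derivedSeries H 2) t z)}

/-- All subgroups of `H / H'''` are finitely generated, `H / H''` and `H' / H'''` are virtually
nilpotent, and `H' / H'''` is not nilpotent. -/
def Exceptional (H : Type*) [Group H] : Prop :=
  (∀ K : Subgroup (H ⧸ derivedSeries H 3), K.FG) ∧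
    Group.IsVirtuallyNilpotent (H ⧸ derivedSeries H 2) ∧
    Group.IsVirtuallyNilpotent (derivedSeries (H ⧸ derivedSeries H 3) 1) ∧
    ¬ Group.IsNilpotent (derivedSeries (H ⧸ derivedSeries H 3) 1)

theorem result : ∃ κ : ℝ, 0 < κ ∧
    ∀ (G : Type u) [Group G] (S : Set G), S.Finite → S⁻¹ = S → Subgroup.closure S = ⊤ →
      ∃ ρ : ℝ, Tendsto (fun n : ℕ => Real.log (Nat.card ↥(S ^ n)) / n) atTop (𝓝 ρ) ∧
        ∀ (H : Subgroup G) (d : ℕ), H.index ≠ 0 → H.index ≤ d →
          Group.IsVirtuallyNilpotent (H ⧸ derivedSeries H 3) ∨ Exceptional H ∨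
            ((1 / (128 * (2 * d - 1)) ≤ ρ ∨
              ∃ z ∈ Spectrum H, min 1 (Real.log (mahler z)) / (31416 * (2 * d - 1)) ≤ ρ) ∧
            ∀ n : ℕ, 0 < n → (∀ z ∈ Spectrum H, (minpoly ℤ z).natDegree ≤ n) →
              κ / ((2 * d - 1) * Real.log (2 * n) ^ 3) ≤ ρ) := by
  obtain ⟨c, hc, hdob⟩ := Pool.Agent.W963.GE.mm_dob
  have hl2 : 0 < Real.log 2 := Real.log_pos (by norm_num)
  have hmin : 0 < min c (Real.log 2 ^ 3) := lt_min hc (pow_pos hl2 3)
  refine ⟨min c (Real.log 2 ^ 3) / 31416, div_pos hmin (by norm_num), ?_⟩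
  intro G _ S hfin hsym hgen
  refine ⟨Pool.Agent.H746UG.rho S, Pool.Agent.H746UG.tendsto_rho S, ?_⟩
  intro H d hH hd
  have hd1 : 1 ≤ d := by omega
  have hpos : (0 : ℝ) < 2 * d - 1 := by
    have : (1 : ℝ) ≤ d := by exact_mod_cast hd1
    linarith
  have key : (1 / (128 * (2 * d - 1)) ≤ Pool.Agent.H746UG.rho S ∨
      ∃ z ∈ Spectrum H, min 1 (Real.log (mahler z)) / (31416 * (2 * d - 1)) ≤
        Pool.Agent.H746UG.rho S) →
      ∀ n : ℕ, 0 < n → (∀ z ∈ Spectrum H, (minpoly ℤ z).natDegree ≤ n) →
        min c (Real.log 2 ^ 3) / 31416 / ((2 * d - 1) * Real.log (2 * n) ^ 3) ≤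
          Pool.Agent.H746UG.rho S := by
    intro h n hn hdeg
    have hn1 : (1 : ℝ) ≤ n := by exact_mod_cast hn
    have hlog : Real.log 2 ≤ Real.log (2 * n) := Real.log_le_log (by norm_num) (by linarith)
    have hlog3 : Real.log 2 ^ 3 ≤ Real.log (2 * n) ^ 3 := pow_le_pow_left₀ hl2.le hlog 3
    have hlogp : 0 < Real.log (2 * n) ^ 3 := pow_pos (hl2.trans_le hlog) 3
    have e : min c (Real.log 2 ^ 3) / 31416 / ((2 * d - 1) * Real.log (2 * n) ^ 3) =
        min c (Real.log 2 ^ 3) / Real.log (2 * n) ^ 3 / (31416 * (2 * d - 1)) := by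
      field_simp
    rw [e]
    have h1 : min c (Real.log 2 ^ 3) / Real.log (2 * n) ^ 3 ≤ 1 := by
      rw [div_le_one hlogp]
      exact (min_le_right _ _).trans hlog3
    rcases h with h | ⟨z, hz, h⟩
    · refine le_trans ?_ h
      rw [div_le_div_iff₀ (by positivity) (by positivity)]
      nlinarith
    · refine le_trans ?_ h
      apply div_le_div_of_nonneg_right _ (by positivity)
      refine le_min h1 ?_
      have hz0 : z ≠ 0 := by
        rintro rfl
        rcases hz.2 with ⟨t, ht⟩ | ⟨t, -, ht⟩
        · exact Pool.Agent.U161.AM.eig_ne_zero _ t ht rfl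
        · exact Pool.Agent.U161.AM.eig_ne_zero _ t ht rfl
      have h2 := hdob z hz.1.1 hz0 hz.1.2.2
      refine le_trans ?_ h2
      have hdz := hdeg z hz
      have hd0 : 0 < (minpoly ℤ z).natDegree := minpoly.natDegree_pos hz.1.1
      have hd0' : (1 : ℝ) ≤ (minpoly ℤ z).natDegree := by exact_mod_cast hd0
      have hdz' : ((minpoly ℤ z).natDegree : ℝ) ≤ n := by exact_mod_cast hdz
      have h3 : 0 < Real.log (2 * (minpoly ℤ z).natDegree) := Real.log_pos (by linarith)
      have h4 : Real.log (2 * (minpoly ℤ z).natDegree) ≤ Real.log (2 * n) :=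
        Real.log_le_log (by linarith) (by linarith)
      calc min c (Real.log 2 ^ 3) / Real.log (2 * n) ^ 3 ≤ c / Real.log (2 * n) ^ 3 :=
            div_le_div_of_nonneg_right (min_le_left _ _) hlogp.le
        _ ≤ _ := div_le_div_of_nonneg_left hc.le (by positivity)
            (pow_le_pow_left₀ h3.le h4 3)
  rcases Pool.Agent.U161.AM.gap S hfin hsym hgen H d hH hd with h | ⟨z, hz, h, hE⟩ | ⟨h1, h2, h3, h4⟩
  · exact Or.inr (Or.inr ⟨Or.inl h, key (Or.inl h)⟩)
  · have h5 : ∃ z ∈ Spectrum H, min 1 (Real.log (mahler z)) / (31416 * (2 * d - 1)) ≤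
        Pool.Agent.H746UG.rho S := ⟨z, ⟨hz, hE⟩, h⟩
    exact Or.inr (Or.inr ⟨Or.inr h5, key (Or.inr h5)⟩)
  · by_cases hnil : Group.IsNilpotent (derivedSeries (H ⧸ derivedSeries H 3) 1)
    · exact Or.inl (h4 hnil)
    · exact Or.inr (Or.inl ⟨h2, h1, h3, hnil⟩)

end Pool.Agent.Results.MP_d69e80_al.DerivedLengthThreeMahler
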