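import Mathlib
import Pool.Agent.U161.AR.Main

/-!
# A growth gap for polycyclic groups of derived length three

`S` is a finite symmetric generating set of an arbitrary group `G` and `H` a subgroup of index at
most `d`.  The starting theorem `DerivedLengthThree` of this problem gives
`ρ_S ≥ (log 2) / (88 (2 d - 1))` unless all subgroups of `H / H'''` are finitely generated, and says
nothing about the polycyclic groups that remain.  Here we treat these.  The elements of `H'` act by
conjugation on `ℂ ⊗ (H'')^ab`; let `Λ` be the set of their eigenvalues that are units and not roots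
of unity.  Either `H' / H'''` is virtually nilpotent (and all subgroups of `H / H'''` are finitely
generated), or `ρ_S ≥ b / (2 d - 1)`, where

* `b = δ (log 2) / (176 (δ + log 3))` if each `z ∈ Λ` has a conjugate of modulus at least `e ^ δ`;
* `b = 1 / (7600 n)` if each `z ∈ Λ` has degree at most `n`, or `dim ℂ ⊗ (H'')^ab ≤ n`;
* `b = 1 / 1430` if complex conjugation is given by a rational polynomial on the eigenvalues of each
  `t ∈ H'` (for instance if these are real).

No condition is put on the way in which `H / H'` acts on `H'`.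

Proof.  If all eigenvalues of `H'` are roots of unity then `H' / H'''` is virtually nilpotent.
Otherwise a short commutator `c` has such an eigenvalue `w` with `|w| ≥ e ^ δ` (normal closure and
Galois conjugation) and the commuting action of `H'` has a common eigenfunctional `φ` with this
eigenvalue.  The map `m ↦ φ [c, m]` is a crossed homomorphism `H' → ℂ`.  As in the non-polycyclic
case there are `K` such lines along a shortest word, but the place is now archimedean: the subset
sums are separated by grouping the summands in cells of ratio at least three, and a second moment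
argument with random perturbations gives `2 ^ (c K R)` elements of length `O(K R)`.
-/

set_option autoImplicit false

namespace Pool.Agent.Results.MP_d69e80_al.DerivedLengthThreePolycyclic

open Filter Topology Polynomial
open scoped Pointwise commutatorElement TensorProduct ComplexConjugate

universe u

/-- Conjugation by `t` on the abelianization `N^ab` (written additively) of a normal subgroup `N`,
as an endomorphism of the abelian group `N^ab`. -/
noncomputable def conjAb {G : Type*} [Group G] (N : Subgroup G) [N.Normal] (t : G) :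
    Module.End ℤ (Additive (Abelianization N)) :=
  (MonoidHom.toAdditive
    (Abelianization.map (MulAut.conjNormal t : N ≃* N).toMonoidHom)).toIntLinearMap

/-- `z` is an eigenvalue of the conjugation by `t` on `ℂ ⊗ (H'')^ab`. -/
def Eigenvalue {H : Type*} [Group H] (t : H) (z : ℂ) : Prop :=
  Module.End.HasEigenvalue (LinearMap.baseChange ℂ (conjAb (derivedSeries H 2) t) :
    Module.End ℂ (ℂ ⊗[ℤ] Additive (Abelianization (derivedSeries H 2)))) z

/-- `z` is such an eigenvalue, an algebraic unit and not a root of unity. -/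
def FreeEigenvalue {H : Type*} [Group H] (t : H) (z : ℂ) : Prop :=
  Eigenvalue t z ∧ IsIntegral ℤ z ∧ IsIntegral ℤ z⁻¹ ∧ ∀ n : ℕ, 0 < n → z ^ n ≠ 1

/-- Each free eigenvalue of each element of `H'` has a conjugate of modulus at least `e ^ δ`. -/
def BigConjugates (δ : ℝ) (H : Type*) [Group H] : Prop :=
  ∀ t ∈ derivedSeries H 1, ∀ z : ℂ, FreeEigenvalue t z →
    ∃ w : ℂ, aeval w (minpoly ℤ z) = 0 ∧ Real.exp δ ≤ ‖w‖

/-- The free eigenvalues of the elements of `H'` have degree at most `n`, or
`dim ℂ ⊗ (H'')^ab ≤ n`. -/
def DegreesLe (n : ℕ) (H : Type*) [Group H] : Prop :=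
  (∀ t ∈ derivedSeries H 1, ∀ z : ℂ, FreeEigenvalue t z → (minpoly ℤ z).natDegree ≤ n) ∨
    Module.finrank ℂ (ℂ ⊗[ℤ] Additive (Abelianization (derivedSeries H 2))) ≤ n

/-- For each `t ∈ H'`, complex conjugation is given by a rational polynomial on the eigenvalues
of `t`. -/
def ConjugationRational (H : Type*) [Group H] : Prop :=
  ∀ t ∈ derivedSeries H 1, ∃ h : ℚ[X], ∀ z : ℂ, Eigenvalue t z → conj z = aeval z h

/-- The alternative: the growth rate `ρ` is at least `b`, or all subgroups of `H / H'''` are
finitely generated and its derived subgroup `H' / H'''` is virtually nilpotent. -/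
def Alternative (ρ b : ℝ) (H : Type*) [Group H] : Prop :=
  b ≤ ρ ∨ ((∀ K : Subgroup (H ⧸ derivedSeries H 3), K.FG) ∧
    Group.IsVirtuallyNilpotent (derivedSeries (H ⧸ derivedSeries H 3) 1))

theorem result {G : Type u} [Group G] (S : Set G) (hfin : S.Finite) (hsym : S⁻¹ = S)
    (hgen : Subgroup.closure S = ⊤) :
    ∃ ρ : ℝ, Tendsto (fun n : ℕ => Real.log (Nat.card ↥(S ^ n)) / n) atTop (𝓝 ρ) ∧
      ∀ (H : Subgroup G) (d : ℕ), H.index ≠ 0 → H.index ≤ d →
        (∀ δ : ℝ, 0 < δ → BigConjugates δ H →
          Alternative ρ (δ * Real.log 2 / (176 * (δ + Real.log 3) * (2 * d - 1))) H) ∧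
        (∀ n : ℕ, 0 < n → DegreesLe n H → Alternative ρ (1 / (7600 * n * (2 * d - 1))) H) ∧
        (ConjugationRational H → Alternative ρ (1 / (1430 * (2 * d - 1))) H) := by
  have hds : ∀ (Q : Type u) [Group Q], derivedSeries Q 1 = commutator Q := fun Q _ => rfl
  refine ⟨Pool.Agent.H746UG.rho S, Pool.Agent.H746UG.tendsto_rho S, ?_⟩
  intro H d hH hd
  have hd1 : 1 ≤ d := by omega
  have hpos : (0 : ℝ) < 2 * d - 1 := by
    have : (1 : ℝ) ≤ d := by exact_mod_cast hd1
    linarith
  have hl2 : 0.6931471803 < Real.log 2 := Real.log_two_gt_d9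
  have hl2' : 0 < Real.log 2 := by linarith
  refine ⟨?_, ?_, ?_⟩
  · intro δ hδ hbig
    have hl3 : 0 < Real.log 3 := Real.log_pos (by norm_num)
    have h := Pool.Agent.U161.AR.gap S hfin hsym hgen H d hH hd hδ (by
      intro hf t ht z hz h1 h2 h3
      exact hbig t ht z ⟨Pool.Agent.U161.AR.eig_of_ef _ hz, h1, h2, h3⟩)
    have e : δ * Real.log 2 / (176 * (δ + Real.log 3) * (2 * d - 1)) =
        Real.log 2 / (88 * Pool.Agent.U161.AR.LL δ * (2 * d - 1)) := by
      unfold Pool.Agent.U161.AR.LL
      field_simp
      ring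
    rw [e]
    exact h
  · intro n hn hdeg
    have hn' : (0 : ℝ) < n := by exact_mod_cast hn
    have hδ : (0 : ℝ) < 1 / (26 * n) := by positivity
    have h := Pool.Agent.U161.AR.gap S hfin hsym hgen H d hH hd hδ (by
      intro hf t ht z hz h1 h2 h3
      refine Pool.Agent.U161.AR.big_deg h1 (Pool.Agent.U161.AR.ef_ne_zero _ hz) h3 hn ?_
      rcases hdeg with hdeg | hdeg
      · exact hdeg t ht z ⟨Pool.Agent.U161.AR.eig_of_ef _ hz, h1, h2, h3⟩
      · exact (Pool.Agent.U161.AR.deg_le _ h1 fun w hw =>
          Pool.Agent.U161.AR.eig_conj _ hz hw).trans hdeg)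
    refine h.imp_left fun h => le_trans ?_ h
    have hL := Pool.Agent.U161.AR.LL_le hδ
    have hn1 : (1 : ℝ) ≤ n := by exact_mod_cast hn
    have e : 2.2 / (1 / (26 * (n : ℝ))) = 57.2 * n := by field_simp; ring
    rw [e] at hL
    have hL2 : Pool.Agent.U161.AR.LL (1 / (26 * (n : ℝ))) ≤ 59.2 * n := by linarith
    have hL0 : 0 < Pool.Agent.U161.AR.LL (1 / (26 * (n : ℝ))) := by
      have : 0 < Real.log 3 := Real.log_pos (by norm_num)
      unfold Pool.Agent.U161.AR.LL
      positivity
    rw [div_le_div_iff₀ (by positivity) (by positivity)]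
    have h5 : 88 * Pool.Agent.U161.AR.LL (1 / (26 * (n : ℝ))) ≤ Real.log 2 * (7600 * n) := by
      nlinarith
    nlinarith
  · intro hcm
    have h := Pool.Agent.U161.AR.gap S hfin hsym hgen H d hH hd
      (show (0 : ℝ) < 21 / 88 by norm_num) (by
      intro hf t ht z hz h1 h2 h3
      obtain ⟨p, hp⟩ := hcm t ht
      exact Pool.Agent.U161.AR.big_cm h1 (Pool.Agent.U161.AR.ef_ne_zero _ hz) h3 fun w hw =>
        hp w (Pool.Agent.U161.AR.eig_conj _ hz hw))
    refine h.imp_left fun h => le_trans ?_ h
    have hL := Pool.Agent.U161.AR.LL_le (show (0 : ℝ) < 21 / 88 by norm_num)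
    have hL0 : 0 < Pool.Agent.U161.AR.LL (21 / 88) := by
      have : 0 < Real.log 3 := Real.log_pos (by norm_num)
      unfold Pool.Agent.U161.AR.LL
      positivity
    rw [div_le_div_iff₀ (by positivity) (by positivity)]
    have h5 : 88 * Pool.Agent.U161.AR.LL (21 / 88) ≤ Real.log 2 * 1430 := by
      norm_num at hL
      nlinarith
    nlinarith

end Pool.Agent.Results.MP_d69e80_al.DerivedLengthThreePolycyclic
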