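import Mathlib
import Pool.Agent.U350.PG.Final

/-!
# Growth gaps for solvable groups which are polynomial in the degree or in the rank

The question asks for a lower bound of the exponential growth rates `ρ_S` of the finitely generated
solvable groups of derived length at most `r` which are not virtually nilpotent.  For solvable
subgroups of `GL_d` the known bounds decrease faster than exponentially with `d`
(`1 / (27 d! J(d))`, over `ℚ` the bound `c / d ^ (2 d)`).  Here the loss is a fixed power of `d`,
whatever the derived length, the class of nilpotency and the indices of the subgroups involved are: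

* for a finite set `S` of complex matrices generating a solvable group,
  `ρ_S ≥ (1 / (24 d ^ 12)) · min (1 / 2, inf log M_λ)` (or the group is virtually nilpotent), where
  `λ` runs through the quotients of two eigenvalues of an element of the group which are algebraic
  integers and not roots of unity;
* for matrices over a number field `K`, `ρ_S ≥ κ / (d ^ 12 (1 + log (1 + d [K : ℚ])) ^ 3)`;
* for solvable groups of Prüfer rank at most `m` (in particular for all polycyclic groups of Hirsch
  length at most `m`), and for all solvable groups with a finite series of normal subgroups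
  with FC-central factors and torsion-free abelian factors of rank at most `m`,
  `ρ_S ≥ κ / (m ^ 6 (1 + log (1 + m)) ^ 3)`.

The new steps are: a solvable group acting on a complex space of dimension `n` has a subgroup of index
at most `n ^ 6` with an eigenvector; the additive function with values in `ℂ` given by an eigenvector
of the dual of a factor extends to a crossed homomorphism of this subgroup, so that the subgroup acts
on the complex plane by similarities, by a group which is not virtually nilpotent.
-/

set_option autoImplicit false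

namespace Pool.Agent.Results.MP_d69e80_al.PolynomialGap

open Filter Topology
open scoped Pointwise

/-- The growth rate `ρ_S` exists, and `⟨S⟩` is virtually nilpotent or `ρ_S ≥ c`. -/
def GrowthGap {Γ : Type} [Group Γ] (S : Set Γ) (c : ℝ) : Prop :=
  ∃ ρ : ℝ, Tendsto (fun n : ℕ => Real.log (Nat.card ↥(S ^ n)) / n) atTop (𝓝 ρ) ∧
    (Group.IsVirtuallyNilpotent (Subgroup.closure S) ∨ c ≤ ρ)

/-- The Mahler measure of an algebraic integer. -/
noncomputable def mahler (x : ℂ) : ℝ := ((minpoly ℤ x).map (Int.castRingHom ℂ)).mahlerMeasure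

/-- `α / β` is a quotient of two eigenvalues of an element of the group generated by `S`. -/
def EigenvalueQuotient {d : ℕ} (S : Set (GL (Fin d) ℂ)) (x : ℂ) : Prop :=
  ∃ g ∈ Subgroup.closure S, ∃ α β : ℂ, (g : Matrix (Fin d) (Fin d) ℂ).charpoly.IsRoot α ∧
    (g : Matrix (Fin d) (Fin d) ℂ).charpoly.IsRoot β ∧ x = α / β

/-- Prüfer rank at most `m`: every finitely generated subgroup is generated by `m` elements. -/
def PrueferRankLe (m : ℕ) (G : Type) [Group G] : Prop :=
  ∀ (n : ℕ) (x : Fin n → G), ∃ y : Fin m → G,
    Subgroup.closure (Set.range y) = Subgroup.closure (Set.range x)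

/-- The factor `A / N` is FC-central: modulo `N`, every element of `A` commutes with all elements of
a subgroup of finite index. -/
def FCFactor {G : Type} [Group G] (N A : Subgroup G) : Prop :=
  ∀ x ∈ A, ∃ K : Subgroup G, K.index ≠ 0 ∧ ∀ k ∈ K, k * x * k⁻¹ * x⁻¹ ∈ N

/-- The factor `A / N` is a torsion-free abelian group of rank at most `m`. -/
def RankFactor (m : ℕ) {G : Type} [Group G] (N A : Subgroup G) : Prop :=
  (∀ a ∈ A, ∀ b ∈ A, a * b * a⁻¹ * b⁻¹ ∈ N) ∧
  (∀ a ∈ A, ∀ k : ℕ, 0 < k → a ^ k ∈ N → a ∈ N) ∧
  ∀ x : Fin (m + 1) → G, (∀ j, x j ∈ A) →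
    ∃ e : Fin (m + 1) → ℤ, e ≠ 0 ∧ (List.ofFn fun j => x j ^ e j).prod ∈ N

/-- `G` has a finite series of normal subgroups whose factors are FC-central or torsion-free abelian
of rank at most `m`. -/
def HasSeries (m : ℕ) (G : Type) [Group G] : Prop :=
  ∃ (n : ℕ) (N : ℕ → Subgroup G), N 0 = ⊥ ∧ N n = ⊤ ∧ (∀ i, (N i).Normal) ∧
    (∀ i, N i ≤ N (i + 1)) ∧ ∀ i < n, FCFactor (N i) (N (i + 1)) ∨ RankFactor m (N i) (N (i + 1))

theorem result :
    (∀ (d : ℕ) (S : Set (GL (Fin d) ℂ)) (y : ℝ), S.Finite →
      Group.IsSolvable (Subgroup.closure S) → 0 ≤ y → y ≤ 1 / 2 →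
      (∀ x, EigenvalueQuotient S x → IsIntegral ℤ x → (∀ k : ℕ, 0 < k → x ^ k ≠ 1) →
        y ≤ Real.log (mahler x)) →
      GrowthGap S (y / (24 * (d : ℝ) ^ 12))) ∧
    ∃ κ : ℝ, 0 < κ ∧
      (∀ (K : Type) [Field K] [NumberField K] (d : ℕ) (S : Set (GL (Fin d) K)), 0 < d →
        S.Finite → Group.IsSolvable (Subgroup.closure S) →
        GrowthGap S (κ / ((d : ℝ) ^ 12 * (1 + Real.log (1 + d * Module.finrank ℚ K)) ^ 3))) ∧
      ∀ (Γ : Type) [Group Γ] (S : Set Γ) (m : ℕ), 0 < m → S.Finite →
        Group.IsSolvable (Subgroup.closure S) →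
        PrueferRankLe m (Subgroup.closure S) ∨ HasSeries m (Subgroup.closure S) →
        GrowthGap S (κ / ((m : ℝ) ^ 6 * (1 + Real.log (1 + m)) ^ 3)) := by
  refine ⟨?_, ?_⟩
  · intro d S y hS hsol hy0 hy1 hQ
    exact Pool.Agent.U350.PG.complex_case S hS hsol hy0 hy1
      (fun g hg α β hα hβ hi hr => hQ _ ⟨g, hg, α, β, hα, hβ, rfl⟩ hi hr)
  · obtain ⟨κ1, hκ1, h1⟩ := Pool.Agent.U350.PG.nf_case
    obtain ⟨κ2, hκ2, h2⟩ := Pool.Agent.U350.PG.series_gap
    refine ⟨min κ1 κ2, lt_min hκ1 hκ2, ?_, ?_⟩
    · intro K _ _ d S hd hS hsol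
      obtain ⟨ρ, hρ, h⟩ := h1 K d S hd hS hsol
      refine ⟨ρ, hρ, h.imp id fun h => le_trans ?_ h⟩
      refine div_le_div_of_nonneg_right (min_le_left _ _) ?_
      have h3 : 0 ≤ Real.log (1 + (d : ℝ) * Module.finrank ℚ K) := Real.log_nonneg (by
        have : (0 : ℝ) ≤ (d : ℝ) * Module.finrank ℚ K := by positivity
        linarith)
      positivity
    · intro Γ _ S m hm hS hsol hser
      have hser' : ∃ n, Pool.Agent.U350.PG.Series m n (Subgroup.closure S) := by
        rcases hser with h | ⟨n, h⟩
        · exact Pool.Agent.U350.PG.series_of_PR _ hsol (fun n x _ => h n x)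
        · exact ⟨n, h⟩
      obtain ⟨n, hn⟩ := hser'
      refine Pool.Agent.U350.PG.sub_case S hS fun T hT hgen => ?_
      by_cases hvn : Pool.Agent.U350.PG.VNr (⊥ : Subgroup (Subgroup.closure S))
      · exact Or.inl (Pool.Agent.U350.PG.vn_of_vnr hvn)
      · right
        have hne : T.Nonempty := by
          by_contra h
          rw [Set.not_nonempty_iff_eq_empty] at h
          apply hvn
          refine ⟨⊤, ?_, 0, ?_⟩
          · rw [Subgroup.index_top]
            exact one_ne_zero
          · rw [Subgroup.lowerCentralSeries_zero, ← hgen, h, Subgroup.closure_empty]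
        refine le_trans ?_ (h2 m n _ hsol hn T hT hne hgen hvn)
        refine div_le_div_of_nonneg_right (min_le_right _ _) ?_
        have h3 : 0 ≤ Real.log (1 + (m : ℝ)) := Real.log_nonneg (by
          have : (0 : ℝ) ≤ m := Nat.cast_nonneg m
          linarith)
        positivity

end Pool.Agent.Results.MP_d69e80_al.PolynomialGap
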